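import Mathlib

set_option autoImplicit false

namespace Pool.Agent.Results.MP_4d31e4_pr.NotConc

open MeasureTheory ProbabilityTheory Filter Topology Finset ENNReal NNReal

section
variable {V : Type} [Fintype V] [Nonempty V] [MeasurableSpace V] (G : SimpleGraph V)

open Classical in
noncomputable def step (u : V) : PMF V :=
  if h : (univ.filter (G.Adj u)).Nonempty then PMF.uniformOfFinset _ h else PMF.pure u

noncomputable def Q (ι : Type) : Measure (ι × ℕ × V → V) :=
  Measure.infinitePi fun x => (step G x.2.2).toMeasure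

def path {ι : Type} (ξ : ι × ℕ × V → V) (p : ι) (x : V) : ℕ → V
  | 0 => x
  | t + 1 => ξ (p, t, path ξ p x t)

inductive Vis (o : V) (N : V → ℕ) (ξ : Option (V × ℕ) × ℕ × V → V) (τ : ℕ) : V → Prop
  | extra (t : ℕ) : t ≤ τ → Vis o N ξ τ (path ξ none o t)
  | wake (v : V) (i t : ℕ) : Vis o N ξ τ v → i < N v → t ≤ τ →
      Vis o N ξ τ (path ξ (some (v, i)) v t)

noncomputable def S (o : V) (ω : (V → ℕ) × (Option (V × ℕ) × ℕ × V → V)) : ℕ :=
  sInf {τ | ∀ v, Vis o ω.1 ω.2 τ v}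

noncomputable def frog (l : ℝ≥0) : Measure ((V → ℕ) × (Option (V × ℕ) × ℕ × V → V)) :=
  (Measure.pi fun _ => poissonMeasure l).prod (Q G _)

noncomputable def D {m : ℕ} (ω : (Fin m → V) × (Fin m × ℕ × V → V)) : ℕ :=
  sInf {t | ∀ v, ∃ i, ∃ s ≤ t, path ω.2 i (ω.1 i) s = v}

noncomputable def walkers (m : ℕ) : Measure ((Fin m → V) × (Fin m × ℕ × V → V)) :=
  (Measure.pi fun _ => (PMF.uniformOfFintype V).toMeasure).prod (Q G _)

instance (ι : Type) : IsProbabilityMeasure (Q G ι) := by unfold Q; infer_instance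
instance (l : ℝ≥0) : IsProbabilityMeasure (frog G l) := by unfold frog; infer_instance
instance (m : ℕ) : IsProbabilityMeasure (walkers G m) := by unfold walkers; infer_instance

lemma compl_ge {Ω : Type} [MeasurableSpace Ω] (μ : Measure Ω) [IsProbabilityMeasure μ]
    (A : Set Ω) (a b : ℝ≥0∞) (ha : a ≠ ⊤) (hab : b + a ≤ 1) (h : μ A ≤ a) : b ≤ μ Aᶜ := by
  have h1 : 1 ≤ μ Aᶜ + a := by
    rw [← measure_univ (μ := μ), ← Set.compl_union_self A]
    exact (measure_union_le _ _).trans (by gcongr)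
  exact (ENNReal.add_le_add_iff_right ha).mp (hab.trans h1)

omit [Nonempty V] [MeasurableSpace V] in
lemma step_supp (u v : V) (h : G.Adj u v) : (step G u).support = {w | G.Adj u w} := by
  unfold step
  split_ifs with h1
  · rw [PMF.support_uniformOfFinset]; ext; simp
  · exact absurd ⟨v, by simpa using h⟩ h1

variable [DiscreteMeasurableSpace V]

lemma lt_one (μ : PMF V) (w : V) (h : μ w ≠ 0) :
    Tendsto (fun M : ℕ => μ.toMeasure {w}ᶜ ^ M) atTop (𝓝 0) := by
  refine ENNReal.tendsto_pow_atTop_nhds_zero_of_lt_one ?_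
  rw [prob_compl_eq_one_sub MeasurableSet.of_discrete,
    PMF.toMeasure_apply_singleton _ _ MeasurableSet.of_discrete]
  exact ENNReal.sub_lt_self one_ne_top one_ne_zero h

lemma q2 (n : ℕ) : ∃ m, n ≤ m ∧ ∀ e : ℝ, 2⁻¹ ≤ walkers G m {ω | 1 / 4 ≤ |D ω / e - 1|} := by
  have h1 := tendsto_finsetSum (univ : Finset V) fun w _ =>
    lt_one (PMF.uniformOfFintype V) w (by simp)
  rw [sum_const_zero] at h1
  obtain ⟨m, h2, h3⟩ := ((eventually_ge_atTop n).and
    (h1.eventually_le_const (show (0 : ℝ≥0∞) < 2⁻¹ by simp))).exists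
  refine ⟨m, h2, fun e => (compl_ge (walkers G m)
    (⋃ w ∈ (univ : Finset V), (Set.univ.pi fun _ => {w}ᶜ) ×ˢ Set.univ) 2⁻¹ 2⁻¹ (by simp)
    ENNReal.inv_two_add_inv_two.le ?_).trans (measure_mono fun ω hω => ?_)⟩
  · refine (measure_biUnion_finset_le _ _).trans (le_of_eq_of_le (sum_congr rfl fun w _ => ?_) h3)
    simp [walkers, Measure.prod_prod, Measure.pi_pi]
  · have : D ω = 0 := Nat.sInf_eq_zero.mpr (Or.inl fun v => by
      simp only [Set.mem_compl_iff, Set.mem_iUnion, Set.mem_prod, Set.mem_pi, Set.mem_univ,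
        forall_true_left, and_true, Set.mem_singleton_iff, not_exists, not_forall, not_not] at hω
      obtain ⟨i, hi⟩ := hω v (mem_univ _)
      exact ⟨i, 0, le_rfl, hi⟩)
    simp only [Set.mem_ofPred_eq, this]
    norm_num

lemma frog_N (l : ℝ≥0) (v : V) (s : Set ℕ) :
    frog G l {ω | ω.1 v ∈ s} = poissonMeasure l s := by
  have : {ω : (V → ℕ) × (Option (V × ℕ) × ℕ × V → V) | ω.1 v ∈ s} =
      (Function.eval v ⁻¹' s) ×ˢ Set.univ := by ext; simp
  rw [this, frog, Measure.prod_prod, measure_univ, mul_one,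
    (measurePreserving_eval (fun _ : V => poissonMeasure l) v).measure_preimage
      MeasurableSet.of_discrete.nullMeasurableSet]

lemma frog_le (l k : ℝ≥0) (h : l ≤ k) (h2 : Real.exp ((k - l) * Fintype.card V) ≤ 2)
    (s : Set _) : frog G l s ≤ 2 * frog G k s := by
  have h1 : (Measure.pi fun _ : V => poissonMeasure l) ≤
      (2 : ℝ≥0∞) • Measure.pi fun _ : V => poissonMeasure k := by
    rw [Measure.le_iff]
    intro s hs
    rw [← Measure.tsum_indicator_apply_singleton _ _ hs,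
      ← Measure.tsum_indicator_apply_singleton _ _ hs]
    refine ENNReal.tsum_le_tsum fun N => Set.indicator_le_indicator ?_
    rw [Measure.smul_apply, ← Set.univ_pi_singleton, Measure.pi_pi, Measure.pi_pi]
    simp only [poissonMeasure_singleton, smul_eq_mul]
    rw [← ofReal_prod_of_nonneg fun _ _ => by positivity,
      ← ofReal_prod_of_nonneg fun _ _ => by positivity, ← ofReal_ofNat, ← ofReal_mul (by norm_num)]
    refine ofReal_le_ofReal ((prod_le_prod (g := fun v => Real.exp (k - l) *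
      (Real.exp (-k) * k ^ N v / (N v).factorial)) (fun _ _ => by positivity) fun v _ => ?_).trans ?_)
    · rw [← mul_div_assoc, ← mul_assoc, ← Real.exp_add, show (k : ℝ) - l + -k = -l by ring]
      gcongr
    · rw [prod_mul_distrib, prod_const, card_univ, ← Real.exp_nat_mul, mul_comm _ (_ - _)]
      gcongr
  have h3 : frog G l ≤ (2 : ℝ≥0∞) • frog G k := by
    rw [Measure.le_iff]
    intro s hs
    rw [Measure.smul_apply, frog, frog, Measure.prod_apply hs, Measure.prod_apply hs,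
      ← lintegral_smul_measure]
    exact lintegral_mono' h1 le_rfl
  exact Measure.le_iff'.mp h3 s

def A (o : V) : Set ((V → ℕ) × (Option (V × ℕ) × ℕ × V → V)) := {ω | ∀ v, Vis o ω.1 ω.2 1 v}

lemma big (hG : G.Connected) (o : V) : ∀ᶠ l : ℝ≥0 in atTop, frog G l (A o)ᶜ ≤ 2⁻¹ := by
  classical
  have h1 := tendsto_finsetSum (univ.filter fun p : V × V => G.Adj p.1 p.2) fun p hp =>
    lt_one (step G p.1) p.2 (by
      have h := (mem_filter.mp hp).2
      rw [← PMF.mem_support_iff, step_supp G _ _ h]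
      exact h)
  rw [sum_const_zero] at h1
  obtain ⟨M, hM⟩ := (h1.eventually_le_const (show (0 : ℝ≥0∞) < 4⁻¹ by simp)).exists
  have h2 : Tendsto (fun l : ℝ≥0 => ∑ _v : V, ∑ j ∈ range M, poissonMeasure l {j}) atTop (𝓝 0) := by
    have : ∀ j, Tendsto (fun l : ℝ≥0 => poissonMeasure l {j}) atTop (𝓝 0) := fun j => by
      simp only [poissonMeasure_singleton]
      rw [← ofReal_zero]
      refine ENNReal.tendsto_ofReal ?_
      have := ((Real.tendsto_pow_mul_exp_neg_atTop_nhds_zero j).comp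
        (NNReal.tendsto_coe_atTop.mpr tendsto_id)).div_const (j.factorial : ℝ)
      simpa [mul_comm, Function.comp_def] using this
    simpa only [sum_const_zero] using tendsto_finsetSum (univ : Finset V) fun _ _ =>
      tendsto_finsetSum (range M) fun j _ => this j
  filter_upwards [h2.eventually_le_const (show (0 : ℝ≥0∞) < 4⁻¹ by simp)] with l hl
  have hsub : (A o)ᶜ ⊆ (⋃ v ∈ (univ : Finset V), ⋃ j ∈ range M, {ω | ω.1 v ∈ ({j} : Set ℕ)}) ∪
      ⋃ p ∈ univ.filter fun p : V × V => G.Adj p.1 p.2, Set.univ ×ˢ Set.pi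
        ((range M).image fun i => (some (p.1, i), 0, p.1)) fun _ => {p.2}ᶜ := by
    intro ω hω
    by_contra hc
    simp only [Set.mem_union, Set.mem_iUnion, not_or, not_exists] at hc
    refine hω fun v => ?_
    obtain ⟨w⟩ := hG v o
    induction w with
    | nil => exact Vis.extra 0 zero_le_one
    | @cons a b c hab _ ih =>
      have h3 := hc.2 (b, a) (by simpa using hab.symm)
      simp only [Set.mem_prod, Set.mem_univ, true_and, Set.mem_pi, Finset.coe_image, Set.mem_image,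
        mem_coe, mem_range, forall_exists_index, and_imp, forall_apply_eq_imp_iff₂,
        Set.mem_compl_iff, Set.mem_singleton_iff, not_forall, not_not] at h3
      obtain ⟨i, hi, h4⟩ := h3
      have h5 : M ≤ ω.1 b := not_lt.mp fun h => hc.1 b (mem_univ _) _ (mem_range.mpr h) rfl
      exact h4 ▸ Vis.wake b i 1 (ih hω) (by omega) le_rfl
  calc _ ≤ _ := (measure_mono hsub).trans (measure_union_le _ _)
    _ ≤ 4⁻¹ + 4⁻¹ := add_le_add ?_ ?_
    _ = _ := by
      rw [← two_mul, show (4 : ℝ≥0∞) = 2 * 2 by norm_num, ENNReal.mul_inv (by simp) (by simp),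
        ← mul_assoc, ENNReal.mul_inv_cancel (by simp) (by simp), one_mul]
  · refine (measure_biUnion_finset_le _ _).trans ((sum_le_sum fun v _ => ?_).trans hl)
    exact (measure_biUnion_finset_le _ _).trans (by simp only [frog_N, le_refl])
  · refine (measure_biUnion_finset_le _ _).trans ((sum_le_sum fun p _ => ?_).trans hM)
    rw [frog, Measure.prod_prod, measure_univ, one_mul, Q,
      Measure.infinitePi_pi _ fun _ _ => MeasurableSet.of_discrete,
      prod_image fun a _ b _ h => by simpa using h]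
    simp

lemma step_adj (hG : ∀ u, ∃ v, G.Adj u v) (ι : Type) [Countable ι] :
    ∀ᵐ ξ ∂(Q G ι), ∀ x, G.Adj x.2.2 (ξ x) := by
  classical
  rw [ae_all_iff]
  intro x
  refine (measurePreserving_eval_infinitePi (fun x : ι × ℕ × V => (step G x.2.2).toMeasure)
    x).quasiMeasurePreserving.ae (p := fun w => G.Adj x.2.2 w) ?_
  rw [ae_iff, PMF.toMeasure_apply_eq_zero_iff _ MeasurableSet.of_discrete,
    step_supp G _ _ (hG x.2.2).choose_spec, Set.disjoint_left]
  simp

lemma small (hG : ∀ u, ∃ v, G.Adj u v) (o w a b : V) (h1 : w ≠ o) (h2 : ¬ G.Adj o w)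
    (h3 : ∀ v, G.Adj v w → v = a ∨ v = b) : frog G 8⁻¹ (A o) ≤ 4⁻¹ := by
  have h4 : ∀ᵐ ω ∂(frog G 8⁻¹), ∀ x, G.Adj x.2.2 (ω.2 x) :=
    (measurePreserving_snd.quasiMeasurePreserving.ae (step_adj G hG _))
  have h5 : poissonMeasure 8⁻¹ {0}ᶜ ≤ 8⁻¹ := by
    rw [prob_compl_eq_one_sub MeasurableSet.of_discrete, poissonMeasure_singleton, ← ofReal_one,
      ← ofReal_sub _ (by positivity), ← ofReal_ofNat 8, ← ofReal_inv_of_pos (by norm_num)]
    refine ofReal_le_ofReal ?_
    have := Real.add_one_le_exp (-8⁻¹)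
    simp at this ⊢
    linarith
  calc _ ≤ frog G 8⁻¹ ({ω | ω.1 a ∈ ({0} : Set ℕ)ᶜ} ∪ {ω | ω.1 b ∈ ({0} : Set ℕ)ᶜ}) := by
        refine measure_mono_ae (h4.mono fun ω hω hA => ?_)
        have key : ∀ v, Vis o ω.1 ω.2 1 v → v = w → ω.1 a ≠ 0 ∨ ω.1 b ≠ 0 := by
          intro v hv
          induction hv with
          | extra t ht =>
            intro e
            interval_cases t
            · exact absurd e.symm h1
            · exact absurd (e ▸ hω (none, 0, o)) h2
          | wake v i t _ hi ht ih =>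
            intro e
            interval_cases t
            · exact ih e
            · rcases h3 v (e ▸ hω (some (v, i), 0, v)) with rfl | rfl
              · left; omega
              · right; omega
        exact key w (hA w) rfl
    _ ≤ 8⁻¹ + 8⁻¹ := (measure_union_le _ _).trans (by rw [frog_N, frog_N]; gcongr)
    _ = _ := by
      rw [← two_mul, show (8 : ℝ≥0∞) = 2 * 4 by norm_num, ENNReal.mul_inv (by simp) (by simp),
        ← mul_assoc, ENNReal.mul_inv_cancel (by simp) (by simp), one_mul]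

lemma q1 (hG : G.Connected) (o : V) (h0 : frog G 8⁻¹ (A o) ≤ 4⁻¹) :
    ∃ l : ℝ≥0, 8⁻¹ ≤ l ∧ ∀ e : ℝ, 4⁻¹ ≤ frog G l {ω | 1 / 4 ≤ |S o ω / e - 1|} := by
  classical
  have hc : (0 : ℝ) < Fintype.card V := by exact_mod_cast Fintype.card_pos
  have hd : 0 < Real.log 2 / Fintype.card V := div_pos (Real.log_pos one_lt_two) hc
  let d : ℝ≥0 := ⟨_, hd.le⟩
  have hex : ∃ k : ℕ, frog G (8⁻¹ + k * d) (A o)ᶜ ≤ 2⁻¹ :=
    ((tendsto_atTop_mono (fun _ => le_add_self) (tendsto_natCast_atTop_atTop.atTop_mul_const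
      (show 0 < d from hd))).eventually (big G hG o)).exists
  have e2 : (2⁻¹ : ℝ≥0∞) = 2 * 4⁻¹ := by
    rw [show (4 : ℝ≥0∞) = 2 * 2 by norm_num, ENNReal.mul_inv (by simp) (by simp),
      ← mul_assoc, ENNReal.mul_inv_cancel (by simp) (by simp), one_mul]
  have e4 : (4⁻¹ : ℝ≥0∞) ≤ 2⁻¹ := ENNReal.inv_le_inv.mpr (by norm_num)
  obtain ⟨l, hl, h2, h3⟩ : ∃ l : ℝ≥0, 8⁻¹ ≤ l ∧ 4⁻¹ ≤ frog G l (A o) ∧ 4⁻¹ ≤ frog G l (A o)ᶜ := by
    refine ⟨8⁻¹ + Nat.find hex * d, le_self_add, ?_, ?_⟩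
    · simpa using compl_ge _ _ _ 4⁻¹ (by simp) ((add_le_add_left e4 _).trans
        ENNReal.inv_two_add_inv_two.le) (Nat.find_spec hex)
    · rcases hk : Nat.find hex with _ | k
      · simpa using compl_ge _ _ _ 4⁻¹ (by simp) ((add_le_add e4 e4).trans
          ENNReal.inv_two_add_inv_two.le) h0
      · have h4 := (not_le.mp (Nat.find_min hex (m := k) (by omega))).le.trans
          (frog_le G _ (8⁻¹ + (k + 1 : ℕ) * d) (by gcongr; omega) (by
            push_cast
            rw [show (8⁻¹ + ((k : ℝ) + 1) * d - (8⁻¹ + k * d)) = d by ring]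
            exact (congrArg Real.exp (div_mul_cancel₀ _ hc.ne')).trans_le
              (Real.exp_log two_pos).le) _)
        rwa [e2, ENNReal.mul_le_mul_iff_right (by simp) (by simp)] at h4
  refine ⟨l, hl, fun e => ?_⟩
  by_cases he : 4 / 3 ≤ e
  · refine h2.trans (measure_mono fun ω hω => ?_)
    have h4 : S o ω ≤ 1 := Nat.sInf_le hω
    have h5 : (S o ω : ℝ) / e ≤ 3 / 4 := by
      rw [div_le_iff₀ (by linarith)]
      have : (S o ω : ℝ) ≤ 1 := by exact_mod_cast h4
      linarith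
    simp only [Set.mem_ofPred_eq]
    exact le_abs.mpr (Or.inr (by linarith))
  · refine h3.trans (measure_mono fun ω hω => ?_)
    have h4 : S o ω ≠ 1 := fun h => hω (by
      have := Nat.sInf_mem (Nat.nonempty_of_pos_sInf (show 0 < S o ω by omega))
      rwa [show sInf _ = 1 from h] at this)
    simp only [Set.mem_ofPred_eq]
    rcases Nat.eq_zero_or_pos (S o ω) with h | h
    · rw [h]; norm_num
    · have h5 : (2 : ℝ) ≤ S o ω := by exact_mod_cast (by omega : 2 ≤ S o ω)
      rcases le_or_gt e 0 with h6 | h6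
      · have := div_nonpos_of_nonneg_of_nonpos (show (0 : ℝ) ≤ S o ω by linarith) h6
        exact le_abs.mpr (Or.inr (by linarith))
      · have : 5 / 4 ≤ (S o ω : ℝ) / e := by rw [le_div_iff₀ h6]; linarith
        exact le_abs.mpr (Or.inl (by linarith))

end

theorem result : ∃ G : (n : ℕ) → SimpleGraph (Fin (n + 4)),
    (∀ n, (G n).Connected ∧ ∀ u v, ∃ φ : G n ≃g G n, φ v = u) ∧
    (∃ l : ℕ → ℝ≥0, (∀ n, 0 < l n) ∧ Tendsto (fun n => (l n : ℝ) * (n + 4)) atTop atTop ∧
      ∀ n, 4⁻¹ ≤ frog (G n) (l n)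
        {ω | 1 / 4 ≤ |S 0 ω / (∫ x, (S 0 x : ℝ) ∂(frog (G n) (l n))) - 1|}) ∧
    (∃ m : ℕ → ℕ, Tendsto m atTop atTop ∧
      ∀ n, 2⁻¹ ≤ walkers (G n) (m n)
        {ω | 1 / 4 ≤ |D ω / (∫ x, (D x : ℝ) ∂(walkers (G n) (m n))) - 1|}) := by
  refine ⟨fun n => SimpleGraph.cycleGraph (n + 4), fun n => ⟨SimpleGraph.cycleGraph_connected,
    fun u v => ⟨⟨Equiv.addRight (u - v), ?_⟩, add_sub_cancel v u⟩⟩, ?_, ?_⟩
  · simp [SimpleGraph.cycleGraph_adj]
  · have : ∀ n, ∃ l : ℝ≥0, 8⁻¹ ≤ l ∧ ∀ e : ℝ, 4⁻¹ ≤ frog (SimpleGraph.cycleGraph (n + 4)) l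
        {ω | 1 / 4 ≤ |S 0 ω / e - 1|} := fun n => by
      have h0 : 2 % (n + 4) = 2 := Nat.mod_eq_of_lt (by omega)
      have h1 : (2 : Fin (n + 4)) ≠ 0 := by simp [Fin.ext_iff, h0]
      refine q1 _ SimpleGraph.cycleGraph_connected 0 (small _ (fun u => ⟨u + 1, ?_⟩) 0 2
        (1 + 2) (2 - 1) h1 ?_ fun v hv => ?_)
      · simp [SimpleGraph.cycleGraph_adj]
      · simp only [SimpleGraph.cycleGraph_adj, Fin.ext_iff, zero_sub, sub_zero, Fin.val_neg',
          Fin.coe_ofNat_eq_mod, show n + 2 + 2 = n + 4 from rfl, h0]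
        rw [Nat.mod_eq_of_lt (by omega), Nat.mod_eq_of_lt (by omega)]
        omega
      · rcases SimpleGraph.cycleGraph_adj.mp hv with h | h
        · left; rw [← h]; simp
        · right; rw [← h]; simp
    choose l h1 h2 using this
    refine ⟨l, fun n => lt_of_lt_of_le (by norm_num) (h1 n), ?_, fun n => h2 n _⟩
    refine tendsto_atTop_mono (fun n => ?_) ((tendsto_atTop_add_const_right _ (4 : ℝ)
      tendsto_natCast_atTop_atTop).const_mul_atTop (show (0 : ℝ) < 8⁻¹ by norm_num))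
    have : (8⁻¹ : ℝ) ≤ l n := by exact_mod_cast h1 n
    gcongr
  · choose m h1 h2 using fun n => q2 (SimpleGraph.cycleGraph (n + 4)) n
    exact ⟨m, tendsto_atTop_mono h1 tendsto_id, fun n => h2 n _⟩

end Pool.Agent.Results.MP_4d31e4_pr.NotConc
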